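import Mathlib

set_option autoImplicit false

open MeasureTheory Set Metric

namespace H307W

noncomputable section

/-- the uniform probability measure on the closed unit disc of the plane -/
def nu : Measure ℂ := (volume (closedBall (0 : ℂ) 1))⁻¹ • volume.restrict (closedBall (0 : ℂ) 1)

/-- average of `F` over the disc of radius `r` around `p` -/
def av (r : ℝ) (F : ℂ → ℝ) (p : ℂ) : ℝ := ∫ u, F (p + r * u) ∂nu

/-- `S` is contained in the image of a curve of length at most `L` -/
def Trav (S : Set ℂ) (L : ℝ) : Prop := 0 ≤ L ∧ ∃ f : ℝ → ℂ, LipschitzWith 1 f ∧ S ⊆ f '' Icc 0 L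

end

end H307W
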