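import Mathlib
import Pool.Agent.Helper307.Worm.Defs

set_option autoImplicit false

open MeasureTheory Set Metric

namespace H307W

noncomputable section

/-- radii -/
def rr (k : ℕ) : ℝ := 1 / (2 ^ 20 * 32 ^ k)

/-- tolerances -/
def tt (k : ℕ) : ℝ := 1 / (16 * 2 ^ k)

/-- branching numbers -/
def bb (k : ℕ) : ℕ := if k = 0 then 2 ^ 17 else 8

/-- numbers of points -/
def nn : ℕ → ℕ
  | 0 => 1
  | k + 1 => nn k * bb k

/-- fullness functions: `j` averages, the first one over radius `rr k` -/
def fl (W : Set ℂ) : ℕ → ℕ → ℂ → ℝ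
  | 0, _ => indicator W (fun _ => 1)
  | j + 1, k => av (rr k) (fl W j (k + 1))


end

end H307W
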