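import Mathlib
import Pool.Agent.Helper307.Worm.Par

set_option autoImplicit false

open MeasureTheory Set Metric

namespace H307W

noncomputable section

theorem w10_rr_succ (k : ℕ) : rr (k + 1) = rr k / 32 := by
  unfold rr
  rw [pow_succ (32 : ℝ) k]
  field_simp

theorem w10_tt_succ (k : ℕ) : tt (k + 1) = tt k / 2 := by
  unfold tt
  rw [pow_succ (2 : ℝ) k]
  field_simp

/-- JOB 10: numerical facts -/
theorem nn_succ (k : ℕ) : nn (k + 1) = 2 ^ 17 * 8 ^ k := by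
  induction k with
  | zero => simp [nn, bb]
  | succ k ih =>
    have h : nn (k + 1 + 1) = nn (k + 1) * bb (k + 1) := rfl
    have hb : bb (k + 1) = 8 := by simp [bb]
    rw [h, ih, hb, pow_succ 8 k, mul_assoc]

theorem w10_n (k : ℕ) : ((nn k * bb k : ℕ) : ℝ) = 2 ^ 17 * 8 ^ k := by
  have h2 : nn (k + 1) = nn k * bb k := rfl
  rw [← h2, nn_succ k]
  push_cast
  ring

theorem count (k : ℕ) : 1700000 * (4 * (2 / rr (k + 1)) / tt k) ^ 4 *
    Real.exp (-(((nn k * bb k : ℕ) : ℝ) * tt k ^ 2 / 2)) < 1 := by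
  have h1 : 4 * (2 / rr (k + 1)) / tt k = 2 ^ 32 * 64 ^ k := by
    unfold rr tt
    rw [pow_succ (32 : ℝ) k]
    have h64 : (64 : ℝ) ^ k = 32 ^ k * 2 ^ k := by
      rw [← mul_pow]
      norm_num
    rw [h64]
    field_simp
    norm_num
  have h2 : ((nn k * bb k : ℕ) : ℝ) * tt k ^ 2 / 2 = 256 * 2 ^ k := by
    rw [w10_n]
    unfold tt
    have h8 : (8 : ℝ) ^ k = 2 ^ k * 2 ^ k * 2 ^ k := by
      rw [← mul_pow, ← mul_pow]
      norm_num
    rw [h8]
    field_simp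
    norm_num
  rw [h1, h2]
  have h3 : (1700000 : ℝ) * (2 ^ 32 * 64 ^ k) ^ 4 < 2 ^ (149 + 24 * k) := by
    have h64 : (64 : ℝ) ^ k = 2 ^ (6 * k) := by
      rw [pow_mul]
      norm_num
    have h4 : (2 ^ 32 * 64 ^ k : ℝ) ^ 4 = 2 ^ (128 + 24 * k) := by
      rw [h64, ← pow_add, ← pow_mul]
      congr 1
      ring
    rw [h4]
    have h5 : (2 : ℝ) ^ (149 + 24 * k) = 2 ^ 21 * 2 ^ (128 + 24 * k) := by
      rw [← pow_add]
      congr 1
      ring
    rw [h5]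
    apply mul_lt_mul_of_pos_right (by norm_num) (by positivity)
  have h6 : (2 : ℝ) ^ (149 + 24 * k) ≤ Real.exp (256 * 2 ^ k) := by
    have h7 : (2 : ℝ) ^ (149 + 24 * k) = Real.exp (((149 + 24 * k : ℕ) : ℝ) * Real.log 2) := by
      rw [Real.exp_nat_mul, Real.exp_log (by norm_num)]
    rw [h7]
    apply Real.exp_le_exp.2
    have h8 := Real.log_two_lt_d9
    have h9 : (1 + (k : ℝ)) ≤ 2 ^ k := by
      have : k + 1 ≤ 2 ^ k := Nat.lt_two_pow_self
      have h10 : ((k + 1 : ℕ) : ℝ) ≤ ((2 ^ k : ℕ) : ℝ) := by exact_mod_cast this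
      push_cast at h10
      linarith
    have h11 : ((149 + 24 * k : ℕ) : ℝ) * Real.log 2 ≤ ((149 + 24 * k : ℕ) : ℝ) * 0.7 :=
      mul_le_mul_of_nonneg_left (by linarith) (by positivity)
    push_cast at h11 ⊢
    have hk : (0 : ℝ) ≤ (k : ℝ) := Nat.cast_nonneg k
    nlinarith
  have h12 : (1700000 : ℝ) * (2 ^ 32 * 64 ^ k) ^ 4 < Real.exp (256 * 2 ^ k) := h3.trans_le h6
  have h13 : Real.exp (256 * 2 ^ k) * Real.exp (-(256 * 2 ^ k)) = 1 := by
    rw [← Real.exp_add, add_neg_cancel, Real.exp_zero]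
  rw [← h13]
  exact mul_lt_mul_of_pos_right h12 (Real.exp_pos _)

theorem cost (k : ℕ) : (1 - (1 / 3) * (1 / 4 : ℝ) ^ k) + ((nn k * bb k : ℕ) : ℝ) * (2 * rr k) ≤
    1 - (1 / 3) * (1 / 4 : ℝ) ^ (k + 1) := by
  rw [w10_n]
  have h : (2 : ℝ) ^ 17 * 8 ^ k * (2 * rr k) = (1 / 4) * (1 / 4) ^ k := by
    unfold rr
    have h32 : (32 : ℝ) ^ k = 8 ^ k * 4 ^ k := by
      rw [← mul_pow]
      norm_num
    rw [h32, one_div_pow]
    field_simp
    norm_num
  rw [h, pow_succ]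
  linarith

theorem rr_pos (k : ℕ) : 0 < rr k := by
  unfold rr
  positivity

theorem rr_step (k : ℕ) : 1 - 2 * rr k + rr k ≤ 1 - 2 * rr (k + 1) := by
  rw [w10_rr_succ]
  have := rr_pos k
  linarith

theorem tt_step (k : ℕ) : (3 / 4 - 4 * tt k) + 2 * tt k ≤ 3 / 4 - 4 * tt (k + 1) := by
  rw [w10_tt_succ]
  linarith

theorem rr_le (k : ℕ) : rr k ≤ 1 / 2 := by
  unfold rr
  have h1 : (1 : ℝ) ≤ 32 ^ k := one_le_pow₀ (by norm_num)
  apply one_div_le_one_div_of_le (by norm_num)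
  nlinarith

theorem tt_pos (k : ℕ) : 0 < tt k := by
  unfold tt
  positivity

theorem tt_le (k : ℕ) : tt k ≤ 2 / rr (k + 1) := by
  have h1 : tt k ≤ 1 := by
    unfold tt
    rw [div_le_one (by positivity)]
    have h1 : (1 : ℝ) ≤ 2 ^ k := one_le_pow₀ (by norm_num)
    nlinarith
  have h2 := rr_pos (k + 1)
  have h3 := rr_le (k + 1)
  have h4 : 1 ≤ 2 / rr (k + 1) := by
    rw [le_div_iff₀ h2]
    linarith
  linarith

theorem rr_small (δ : ℝ) (hδ : 0 < δ) : ∃ K, rr K ≤ δ := by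
  obtain ⟨K, hK⟩ := exists_pow_lt_of_lt_one hδ (show (1 / 32 : ℝ) < 1 by norm_num)
  refine ⟨K, le_trans ?_ hK.le⟩
  unfold rr
  rw [one_div_pow]
  apply one_div_le_one_div_of_le (by positivity)
  have h1 : (0 : ℝ) < 32 ^ K := by positivity
  nlinarith

end

end H307W
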