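import Mathlib
import Pool.Agent.Helper307.Worm.Defs

set_option autoImplicit false

open MeasureTheory Set Metric

namespace H307W

noncomputable section

/-- JOB 1: `nu` is a probability measure carried by the closed unit disc -/
theorem nu_prob : IsProbabilityMeasure nu := by
  have h0 : volume (closedBall (0 : ℂ) 1) ≠ 0 := (measure_closedBall_pos volume 0 one_pos).ne'
  have h1 : volume (closedBall (0 : ℂ) 1) ≠ ⊤ := measure_closedBall_lt_top.ne
  refine ⟨?_⟩
  unfold nu
  rw [Measure.smul_apply, Measure.restrict_apply MeasurableSet.univ, univ_inter, smul_eq_mul]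
  exact ENNReal.inv_mul_cancel h0 h1

theorem nu_ae : ∀ᵐ u ∂nu, u ∈ closedBall (0 : ℂ) 1 := by
  unfold nu
  exact Measure.ae_smul_measure (ae_restrict_mem measurableSet_closedBall) _

theorem nu_mp (c : ℂ) (hc : ‖c‖ = 1) : MeasurePreserving (fun u : ℂ => c * u) nu nu := by
  have hc' : c ∈ Submonoid.unitSphere ℂ := by
    rw [Submonoid.unitSphere, Submonoid.mem_mk] <;> simp [hc]
  have h1 : MeasurePreserving (fun u : ℂ => c * u) volume volume :=
    (rotation ⟨c, hc'⟩).measurePreserving
  have h2 := h1.restrict_preimage (s := closedBall (0 : ℂ) 1) measurableSet_closedBall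
  have h3 : (fun u : ℂ => c * u) ⁻¹' closedBall (0 : ℂ) 1 = closedBall (0 : ℂ) 1 := by
    ext u
    simp [hc]
  rw [h3] at h2
  exact h2.smul_measure _

/-- rotation invariance -/
theorem av_rot (r : ℝ) (F : ℂ → ℝ) (p c : ℂ) (hc : ‖c‖ = 1) :
    ∫ u, F (p + c * (r * u)) ∂nu = av r F p := by
  have hc0 : c ≠ 0 := by
    rintro rfl
    simp at hc
  have hemb : MeasurableEmbedding (fun u : ℂ => c * u) :=
    (Homeomorph.mulLeft₀ c hc0).measurableEmbedding
  have h1 := (nu_mp c hc).integral_comp hemb (fun u => F (p + r * u))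
  unfold av
  rw [← h1]
  congr 1
  funext u
  congr 1
  ring

theorem av_nonneg (r : ℝ) (F : ℂ → ℝ) (h0 : ∀ z, 0 ≤ F z) (p : ℂ) : 0 ≤ av r F p :=
  integral_nonneg fun _ => h0 _

theorem av_le_one (r : ℝ) (F : ℂ → ℝ) (h0 : ∀ z, 0 ≤ F z) (h1 : ∀ z, F z ≤ 1) (p : ℂ) :
    av r F p ≤ 1 := by
  have := nu_prob
  unfold av
  by_cases hi : Integrable (fun u : ℂ => F (p + r * u)) nu
  · calc ∫ u, F (p + r * u) ∂nu ≤ ∫ _, (1 : ℝ) ∂nu :=
          integral_mono hi (integrable_const _) fun u => h1 _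
      _ = 1 := by simp
  · rw [integral_undef hi]
    exact zero_le_one

/-- if the average is less than one then some value in the disc is less than one -/
theorem exists_of_av_lt_one (r : ℝ) (hr : 0 ≤ r) (F : ℂ → ℝ) (hF : Measurable F) (h0 : ∀ z, 0 ≤ F z)
    (h1 : ∀ z, F z ≤ 1) (p : ℂ) (h : av r F p < 1) : ∃ y, ‖y - p‖ ≤ r ∧ F y < 1 := by
  have := nu_prob
  by_contra hcon
  push Not at hcon
  have h2 : av r F p = 1 := by
    unfold av
    have h3 : (fun u : ℂ => F (p + r * u)) =ᵐ[nu] fun _ => (1 : ℝ) := by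
      filter_upwards [nu_ae] with u hu
      apply le_antisymm (h1 _)
      apply hcon
      have h4 : ‖u‖ ≤ 1 := by simpa using hu
      rw [add_sub_cancel_left, norm_mul, Complex.norm_real, Real.norm_eq_abs, abs_of_nonneg hr]
      nlinarith [norm_nonneg u]
    rw [integral_congr_ae h3]
    simp
  linarith

end

end H307W
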