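import Mathlib
import Pool.Agent.Helper307.Worm.Defs

set_option autoImplicit false

open MeasureTheory Set Metric

namespace H307W

noncomputable section

theorem vol_ball_real (a : ℂ) (ρ : ℝ) (hρ : 0 ≤ ρ) :
    volume.real (closedBall a ρ) = Real.pi * ρ ^ 2 := by
  rw [Measure.real, Complex.volume_closedBall]
  simp [ENNReal.toReal_mul, ENNReal.toReal_pow, ENNReal.toReal_ofReal hρ, mul_comm]

theorem diff_vol (a b : ℂ) :
    volume.real (closedBall a 1 \ closedBall b 1) ≤ 2 * Real.pi * ‖a - b‖ := by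
  have hpi := Real.pi_pos
  have hfin : ∀ (c : ℂ) (ρ : ℝ), volume (closedBall c ρ) ≠ ⊤ := fun c ρ =>
    (isCompact_closedBall c ρ).measure_lt_top.ne
  have hfa : volume.real (closedBall a 1) = Real.pi * 1 ^ 2 := vol_ball_real a 1 zero_le_one
  rcases le_total ‖a - b‖ 1 with h | h
  · have hsub : closedBall a (1 - ‖a - b‖) ⊆ closedBall b 1 := by
      apply closedBall_subset_closedBall'
      rw [dist_eq_norm]
      linarith
    have hsub2 : closedBall a (1 - ‖a - b‖) ⊆ closedBall a 1 :=
      closedBall_subset_closedBall (by linarith [norm_nonneg (a - b)])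
    have h1 : volume.real (closedBall a 1 \ closedBall b 1)
        ≤ volume.real (closedBall a 1 \ closedBall a (1 - ‖a - b‖)) :=
      measureReal_mono (sdiff_subset_sdiff_right hsub)
        (ne_top_of_le_ne_top (hfin a 1) (measure_mono sdiff_subset))
    have h2 : volume.real (closedBall a 1 \ closedBall a (1 - ‖a - b‖))
        = volume.real (closedBall a 1) - volume.real (closedBall a (1 - ‖a - b‖)) :=
      measureReal_sdiff hsub2 measurableSet_closedBall (hfin a 1)
    have h3 : volume.real (closedBall a (1 - ‖a - b‖)) = Real.pi * (1 - ‖a - b‖) ^ 2 :=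
      vol_ball_real a _ (by linarith)
    rw [h2, h3, hfa] at h1
    nlinarith [sq_nonneg ‖a - b‖, mul_nonneg hpi.le (sq_nonneg ‖a - b‖)]
  · have h1 : volume.real (closedBall a 1 \ closedBall b 1) ≤ volume.real (closedBall a 1) :=
      measureReal_mono sdiff_subset (hfin a 1)
    rw [hfa] at h1
    nlinarith [norm_nonneg (a - b)]

theorem int_diff (G : ℂ → ℝ) (hG : Measurable G) (h0 : ∀ z, 0 ≤ G z) (h1 : ∀ z, G z ≤ 1)
    (a b : ℂ) :
    (∫ v in closedBall a 1, G v) - (∫ v in closedBall b 1, G v) ≤ 2 * Real.pi * ‖a - b‖ := by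
  have hfin : ∀ (c : ℂ) (ρ : ℝ), volume (closedBall c ρ) ≠ ⊤ := fun c ρ =>
    (isCompact_closedBall c ρ).measure_lt_top.ne
  have hn : ∀ z, ‖G z‖ ≤ 1 := fun z => by
    rw [Real.norm_eq_abs, abs_of_nonneg (h0 z)]
    exact h1 z
  have hint : ∀ c : ℂ, IntegrableOn G (closedBall c 1) := fun c =>
    Measure.integrableOn_of_bounded (M := 1) (hfin c 1) hG.aestronglyMeasurable
      (Filter.Eventually.of_forall hn)
  have e1 := integral_inter_add_sdiff (μ := volume) (s := closedBall a 1) (t := closedBall b 1)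
    (f := G) measurableSet_closedBall (hint a)
  have e2 : (∫ v in closedBall a 1 ∩ closedBall b 1, G v) ≤ ∫ v in closedBall b 1, G v :=
    setIntegral_mono_set (hint b) (Filter.Eventually.of_forall h0)
      (HasSubset.Subset.eventuallyLE inter_subset_right)
  have hlt : volume (closedBall a 1 \ closedBall b 1) < ⊤ :=
    lt_of_le_of_lt (measure_mono sdiff_subset) (isCompact_closedBall a 1).measure_lt_top
  have e3 := norm_setIntegral_le_of_norm_le_const (μ := volume) (f := G) (C := 1) hlt
    (fun x _ => hn x)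
  rw [one_mul, Real.norm_eq_abs] at e3
  have e4 := le_of_abs_le e3
  have e5 := diff_vol a b
  linarith

theorem av_eq (r : ℝ) (hr : 0 < r) (F : ℂ → ℝ) (p q : ℂ) :
    av r F p = Real.pi⁻¹ * ∫ v in closedBall ((p - q) / r) 1, F (q + r * v) := by
  have hr' : (r : ℂ) ≠ 0 := by exact_mod_cast hr.ne'
  unfold av nu
  rw [integral_smul_measure, smul_eq_mul]
  congr 1
  · rw [ENNReal.toReal_inv]
    have := vol_ball_real (0 : ℂ) 1 zero_le_one
    rw [Measure.real] at this
    rw [this]
    simp
  · rw [← integral_indicator measurableSet_closedBall, ← integral_indicator measurableSet_closedBall]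
    rw [← integral_add_right_eq_self
      ((closedBall ((p - q) / (r : ℂ)) 1).indicator (fun v : ℂ => F (q + r * v)))
      ((p - q) / (r : ℂ))]
    congr 1
    funext u
    by_cases hu : u ∈ closedBall (0 : ℂ) 1
    · have hu' : u + (p - q) / r ∈ closedBall ((p - q) / (r : ℂ)) 1 := by
        rw [mem_closedBall, dist_eq_norm] at hu ⊢
        simpa using hu
      rw [indicator_of_mem hu, indicator_of_mem hu']
      congr 1
      field_simp
      ring
    · have hu' : u + (p - q) / r ∉ closedBall ((p - q) / (r : ℂ)) 1 := by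
        intro hh
        apply hu
        rw [mem_closedBall, dist_eq_norm] at hh ⊢
        simpa using hh
      rw [indicator_of_notMem hu, indicator_of_notMem hu']

/-- JOB 2: the average over a disc is a Lipschitz function of the centre -/
theorem av_lip (r : ℝ) (hr : 0 < r) (F : ℂ → ℝ) (hF : Measurable F) (h0 : ∀ z, 0 ≤ F z)
    (h1 : ∀ z, F z ≤ 1) (p q : ℂ) : |av r F p - av r F q| ≤ 2 / r * ‖p - q‖ := by
  have hpi := Real.pi_pos
  have hG : Measurable (fun v : ℂ => F (q + r * v)) := by
    apply hF.comp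
    fun_prop
  have hd := int_diff (fun v : ℂ => F (q + r * v)) hG (fun z => h0 _) (fun z => h1 _)
    ((p - q) / r) 0
  have hd' := int_diff (fun v : ℂ => F (q + r * v)) hG (fun z => h0 _) (fun z => h1 _)
    0 ((p - q) / r)
  have e1 := av_eq r hr F p q
  have e2 := av_eq r hr F q q
  rw [sub_self, zero_div] at e2
  have hn : ‖(p - q) / (r : ℂ)‖ = ‖p - q‖ / r := by
    rw [norm_div, Complex.norm_real, Real.norm_eq_abs, abs_of_pos hr]
  rw [sub_zero, hn] at hd
  rw [zero_sub, norm_neg, hn] at hd'
  rw [e1, e2, ← mul_sub, abs_mul, abs_of_pos (inv_pos.2 hpi)]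
  have h3 : |(∫ v in closedBall ((p - q) / (r : ℂ)) 1, F (q + r * v))
      - ∫ v in closedBall (0 : ℂ) 1, F (q + r * v)| ≤ 2 * Real.pi * (‖p - q‖ / r) := by
    rw [abs_le]
    constructor <;> linarith
  calc Real.pi⁻¹ * |(∫ v in closedBall ((p - q) / (r : ℂ)) 1, F (q + r * v))
      - ∫ v in closedBall (0 : ℂ) 1, F (q + r * v)|
      ≤ Real.pi⁻¹ * (2 * Real.pi * (‖p - q‖ / r)) :=
        mul_le_mul_of_nonneg_left h3 (inv_pos.2 hpi).le
    _ = 2 / r * ‖p - q‖ := by
        field_simp

end

end H307W
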