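import Mathlib
import Pool.Agent.Helper307.Worm.W1

set_option autoImplicit false

open MeasureTheory Set Metric

namespace H307W

noncomputable section

theorem vol_cb : volume (closedBall (0 : ℂ) 1) = ENNReal.ofReal Real.pi := by
  rw [Complex.volume_closedBall]
  have : ((NNReal.pi : NNReal) : ENNReal) = ENNReal.ofReal Real.pi := by
    rw [← NNReal.coe_real_pi, ENNReal.ofReal_coe_nnreal]
  simp [this]

instance nuProbInst : IsProbabilityMeasure nu := nu_prob

/-- JOB 3a: averages are measurable -/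
theorem av_meas (r : ℝ) (F : ℂ → ℝ) (hF : Measurable F) : Measurable (av r F) := by
  have h : Measurable (fun q : ℂ × ℂ => F (q.1 + r * q.2)) :=
    hF.comp (measurable_fst.add (measurable_const.mul measurable_snd))
  exact (h.stronglyMeasurable.integral_prod_right' (ν := nu)).measurable

theorem av_ofReal (r : ℝ) (F : ℂ → ℝ) (hF : Measurable F) (h0 : ∀ z, 0 ≤ F z)
    (h1 : ∀ z, F z ≤ 1) (p : ℂ) :
    ENNReal.ofReal (av r F p) = ∫⁻ u, ENNReal.ofReal (F (p + r * u)) ∂nu := by
  unfold av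
  have hm : Measurable (fun u : ℂ => F (p + r * u)) :=
    hF.comp (measurable_const.add (measurable_const.mul measurable_id))
  apply ofReal_integral_eq_lintegral_ofReal
  · refine Integrable.of_bound hm.aestronglyMeasurable 1 (Filter.Eventually.of_forall fun u => ?_)
    rw [Real.norm_eq_abs, abs_of_nonneg (h0 _)]
    exact h1 _
  · exact Filter.Eventually.of_forall fun u => h0 _

/-- JOB 3b: averaging preserves the (lower) integral -/
theorem av_lintegral (r : ℝ) (hr : 0 < r) (F : ℂ → ℝ) (hF : Measurable F) (h0 : ∀ z, 0 ≤ F z)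
    (h1 : ∀ z, F z ≤ 1) : ∫⁻ p, ENNReal.ofReal (av r F p) = ∫⁻ p, ENNReal.ofReal (F p) := by
  have h : Measurable (fun q : ℂ × ℂ => ENNReal.ofReal (F (q.1 + r * q.2))) :=
    (hF.comp (measurable_fst.add (measurable_const.mul measurable_snd))).ennreal_ofReal
  simp_rw [av_ofReal r F hF h0 h1]
  rw [lintegral_lintegral_swap (f := fun p u => ENNReal.ofReal (F (p + r * u))) h.aemeasurable]
  have : ∀ u : ℂ, ∫⁻ p : ℂ, ENNReal.ofReal (F (p + r * u)) = ∫⁻ p, ENNReal.ofReal (F p) := by
    intro u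
    exact lintegral_add_right_eq_self (fun p => ENNReal.ofReal (F p)) ((r : ℂ) * u)
  simp_rw [this]
  rw [lintegral_const, measure_univ, mul_one]

/-- JOB 3c: density bound -/
theorem av_le_lintegral (r : ℝ) (hr : 0 < r) (F : ℂ → ℝ) (hF : Measurable F) (h0 : ∀ z, 0 ≤ F z)
    (h1 : ∀ z, F z ≤ 1) (p : ℂ) :
    ENNReal.ofReal (av r F p) ≤ ENNReal.ofReal (1 / (Real.pi * r ^ 2)) * ∫⁻ y, ENNReal.ofReal (F y) := by
  rw [av_ofReal r F hF h0 h1]
  have hm : Measurable (fun u : ℂ => ENNReal.ofReal (F (p + r * u))) :=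
    (hF.comp (measurable_const.add (measurable_const.mul measurable_id))).ennreal_ofReal
  have hG : Measurable (fun u : ℂ => ENNReal.ofReal (F u)) := hF.ennreal_ofReal
  have e1 : ∫⁻ u, ENNReal.ofReal (F (p + r * u)) ∂nu
      = (volume (closedBall (0 : ℂ) 1))⁻¹ * ∫⁻ u in closedBall (0 : ℂ) 1, ENNReal.ofReal (F (p + r * u)) := by
    unfold nu
    rw [lintegral_smul_measure, smul_eq_mul]
  have e2 : ∫⁻ u in closedBall (0 : ℂ) 1, ENNReal.ofReal (F (p + r * u)) ≤ ∫⁻ u, ENNReal.ofReal (F (p + r * u)) :=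
    setLIntegral_le_lintegral _ _
  have e3 : ∫⁻ u : ℂ, ENNReal.ofReal (F (p + r * u)) = ENNReal.ofReal ((r ^ 2)⁻¹) * ∫⁻ y, ENNReal.ofReal (F y) := by
    have hmap := Measure.map_addHaar_smul (volume : Measure ℂ) hr.ne'
    have a1 : ∫⁻ u : ℂ, ENNReal.ofReal (F (p + r * u))
        = ∫⁻ v : ℂ, ENNReal.ofReal (F (p + v)) ∂(Measure.map (fun x : ℂ => r • x) volume) := by
      rw [lintegral_map]
      · simp [Complex.real_smul]
      · exact (hF.comp (measurable_const.add measurable_id)).ennreal_ofReal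
      · exact measurable_const_smul r
    rw [a1]
    have : (Measure.map (fun x : ℂ => r • x) volume) = ENNReal.ofReal |(r ^ Module.finrank ℝ ℂ)⁻¹| • (volume : Measure ℂ) := hmap
    rw [this, lintegral_smul_measure, Complex.finrank_real_complex, smul_eq_mul, abs_of_nonneg (by positivity)]
    congr 1
    exact lintegral_add_left_eq_self (fun v => ENNReal.ofReal (F v)) p
  rw [e1]
  calc (volume (closedBall (0 : ℂ) 1))⁻¹ * ∫⁻ u in closedBall (0 : ℂ) 1, ENNReal.ofReal (F (p + r * u))
      ≤ (volume (closedBall (0 : ℂ) 1))⁻¹ * (ENNReal.ofReal ((r ^ 2)⁻¹) * ∫⁻ y, ENNReal.ofReal (F y)) := by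
        gcongr
        exact e2.trans e3.le
    _ = ENNReal.ofReal (1 / (Real.pi * r ^ 2)) * ∫⁻ y, ENNReal.ofReal (F y) := by
        rw [← mul_assoc, vol_cb, ← ENNReal.ofReal_inv_of_pos Real.pi_pos,
          ← ENNReal.ofReal_mul (by positivity)]
        congr 2
        field_simp

end

end H307W
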