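import Mathlib
import Pool.Agent.Helper307.Worm.W1
import Pool.Agent.Helper307.Worm.W2
import Pool.Agent.Helper307.Worm.W3
import Pool.Agent.Helper307.Worm.W10

set_option autoImplicit false

open MeasureTheory Set Metric

namespace H307W

noncomputable section

/-- JOB 11 (targets): properties of the fullness functions.  -/
theorem fl_meas (W : Set ℂ) (hW : MeasurableSet W) (j k : ℕ) : Measurable (fl W j k) := by
  induction j generalizing k with
  | zero =>
    change Measurable (indicator W (fun _ => (1 : ℝ)))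
    exact measurable_const.indicator hW
  | succ j ih => exact av_meas (rr k) _ (ih (k + 1))

theorem fl_nonneg (W : Set ℂ) (j k : ℕ) (z : ℂ) : 0 ≤ fl W j k z := by
  induction j generalizing k z with
  | zero =>
    change 0 ≤ indicator W (fun _ => (1 : ℝ)) z
    exact indicator_nonneg (fun _ _ => zero_le_one) z
  | succ j ih => exact av_nonneg (rr k) _ (fun w => ih (k + 1) w) z

theorem fl_le_one (W : Set ℂ) (j k : ℕ) (z : ℂ) : fl W j k z ≤ 1 := by
  induction j generalizing k z with
  | zero =>
    change indicator W (fun _ => (1 : ℝ)) z ≤ 1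
    exact indicator_le_self' (fun _ _ => zero_le_one) z
  | succ j ih =>
    exact av_le_one (rr k) _ (fun w => fl_nonneg W j (k + 1) w) (fun w => ih (k + 1) w) z

theorem fl_lip (W : Set ℂ) (hW : MeasurableSet W) (j k : ℕ) (y z : ℂ) :
    |fl W (j + 1) k y - fl W (j + 1) k z| ≤ 2 / rr k * ‖y - z‖ :=
  av_lip (rr k) (rr_pos k) _ (fl_meas W hW j (k + 1)) (fun w => fl_nonneg W j (k + 1) w)
    (fun w => fl_le_one W j (k + 1) w) y z

theorem fl_lintegral (W : Set ℂ) (hW : MeasurableSet W) (j k : ℕ) :
    ∫⁻ p, ENNReal.ofReal (fl W j k p) = volume W := by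
  induction j generalizing k with
  | zero =>
    have h : ∀ p, ENNReal.ofReal (fl W 0 k p) = indicator W (fun _ => (1 : ENNReal)) p := by
      intro p
      change ENNReal.ofReal (indicator W (fun _ => (1 : ℝ)) p) = _
      by_cases hp : p ∈ W
      · rw [indicator_of_mem hp, indicator_of_mem hp, ENNReal.ofReal_one]
      · rw [indicator_of_notMem hp, indicator_of_notMem hp, ENNReal.ofReal_zero]
    simp only [h]
    rw [lintegral_indicator hW, lintegral_one, Measure.restrict_apply_univ]
  | succ j ih =>
    have h := av_lintegral (rr k) (rr_pos k) _ (fl_meas W hW j (k + 1))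
      (fun w => fl_nonneg W j (k + 1) w) (fun w => fl_le_one W j (k + 1) w)
    exact h.trans (ih (k + 1))

theorem fl_start (W : Set ℂ) (hW : MeasurableSet W) (hv : volume W ≤ ENNReal.ofReal (1 / 2 ^ 40))
    (j : ℕ) (z : ℂ) : fl W (j + 1) 0 z ≤ 1 / 2 := by
  have h := av_le_lintegral (rr 0) (rr_pos 0) _ (fl_meas W hW j (0 + 1))
    (fun w => fl_nonneg W j (0 + 1) w) (fun w => fl_le_one W j (0 + 1) w) z
  rw [fl_lintegral W hW j (0 + 1)] at h
  have h2 : ENNReal.ofReal (fl W (j + 1) 0 z) ≤ ENNReal.ofReal (1 / 2) := by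
    refine h.trans ((mul_le_mul_right hv _).trans ?_)
    rw [← ENNReal.ofReal_mul (by have := Real.pi_pos; positivity)]
    refine ENNReal.ofReal_le_ofReal ?_
    have h3 : 1 / (Real.pi * rr 0 ^ 2) * (1 / 2 ^ 40) = 1 / Real.pi := by
      have := Real.pi_pos
      unfold rr
      field_simp
    rw [h3]
    exact one_div_le_one_div_of_le (by norm_num) (by linarith [Real.pi_gt_three])
  exact (ENNReal.ofReal_le_ofReal_iff (by norm_num)).1 h2

end

end H307W
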