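import Mathlib
import Pool.Agent.Helper307.Worm.Defs

set_option autoImplicit false

open MeasureTheory Set Metric

namespace H307W

noncomputable section

theorem h338_ident (t s d : ℝ) (hd : 0 ≤ d) :
    min t s + max s (min t (s + 2 * d)) + max (t - 2 * d) s = t + 2 * s := by
  rcases le_total t s with h | h
  · rw [min_eq_left h, min_eq_left (by linarith : t ≤ s + 2 * d), max_eq_left h,
      max_eq_right (by linarith : t - 2 * d ≤ s)]
    ring
  · rcases le_total t (s + 2 * d) with h2 | h2
    · rw [min_eq_right h, min_eq_left h2, max_eq_right h, max_eq_right (by linarith : t - 2 * d ≤ s)]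
      ring
    · rw [min_eq_right h, min_eq_right h2, max_eq_right (by linarith : s ≤ s + 2 * d),
        max_eq_left (by linarith : s ≤ t - 2 * d)]
      ring

/-- JOB 6: insert a detour into a curve -/
theorem trav_insert {S : Set ℂ} {L : ℝ} (hS : Trav S L) {p q : ℂ} (hp : p ∈ S) :
    Trav (insert q S) (L + 2 * ‖p - q‖) := by
  obtain ⟨hL, f, hf, hSf⟩ := hS
  obtain ⟨d, hd⟩ : ∃ d : ℝ, d = ‖p - q‖ := ⟨_, rfl⟩
  rw [← hd]
  have hd0 : 0 ≤ d := by rw [hd]; exact norm_nonneg _
  rcases hd0.eq_or_lt with h0 | hdpos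
  · have hpq : p = q := by
      rw [← h0] at hd
      exact sub_eq_zero.mp (norm_eq_zero.mp hd.symm)
    refine ⟨by linarith, f, hf, ?_⟩
    rw [← h0]
    intro x hx
    rcases hx with hx | hx
    · rw [hx, ← hpq]
      have h1 := hSf hp
      simpa using h1
    · have h1 := hSf hx
      simpa using h1
  obtain ⟨s, hs, hfs⟩ := hSf hp
  obtain ⟨e, he⟩ : ∃ e : ℂ, e = (1 / d : ℝ) • (q - p) := ⟨_, rfl⟩
  have hen : ‖e‖ = 1 := by
    rw [he, norm_smul, norm_sub_rev, ← hd, Real.norm_eq_abs, abs_of_pos (by positivity)]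
    field_simp
  have hde : d • e = q - p := by
    rw [he, smul_smul]
    have : d * (1 / d) = 1 := by field_simp
    rw [this, one_smul]
  obtain ⟨w, hw⟩ : ∃ w : ℝ → ℂ, w = fun x => (d - |x - (s + d)|) • e := ⟨_, rfl⟩
  have hwlip : ∀ x y, ‖w y - w x‖ ≤ |y - x| := by
    intro x y
    rw [hw]
    show ‖(d - |y - (s + d)|) • e - (d - |x - (s + d)|) • e‖ ≤ |y - x|
    rw [← sub_smul, norm_smul, hen, mul_one, Real.norm_eq_abs]
    have h1 : d - |y - (s + d)| - (d - |x - (s + d)|) = |x - (s + d)| - |y - (s + d)| := by ring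
    rw [h1]
    refine (abs_abs_sub_abs_le _ _).trans ?_
    rw [abs_sub_comm y x]
    apply le_of_eq
    congr 1
    ring
  have hw0 : w s = 0 := by
    rw [hw]
    show (d - |s - (s + d)|) • e = 0
    have : |s - (s + d)| = d := by
      rw [show s - (s + d) = -d by ring, abs_neg, abs_of_pos hdpos]
    rw [this, sub_self, zero_smul]
  have hw2 : w (s + 2 * d) = 0 := by
    rw [hw]
    show (d - |s + 2 * d - (s + d)|) • e = 0
    have : |s + 2 * d - (s + d)| = d := by
      rw [show s + 2 * d - (s + d) = d by ring, abs_of_pos hdpos]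
    rw [this, sub_self, zero_smul]
  have hw1 : w (s + d) = q - p := by
    rw [hw]
    show (d - |s + d - (s + d)|) • e = q - p
    rw [sub_self, abs_zero, sub_zero, hde]
  have hfl : ∀ x y, ‖f y - f x‖ ≤ |y - x| := by
    intro x y
    have := hf.dist_le_mul y x
    rw [dist_eq_norm, Real.dist_eq] at this
    simpa using this
  obtain ⟨F, hF⟩ : ∃ F : ℝ → ℂ, F = fun t => f (min t s) + w (max s (min t (s + 2 * d)))
      + (f (max (t - 2 * d) s) - p) := ⟨_, rfl⟩
  have key : ∀ t1 t2, t1 ≤ t2 → ‖F t2 - F t1‖ ≤ t2 - t1 := by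
    intro t1 t2 h12
    have e1 : F t2 - F t1 = (f (min t2 s) - f (min t1 s)) +
        (w (max s (min t2 (s + 2 * d))) - w (max s (min t1 (s + 2 * d)))) +
        (f (max (t2 - 2 * d) s) - f (max (t1 - 2 * d) s)) := by
      rw [hF]
      show (f (min t2 s) + w (max s (min t2 (s + 2 * d))) + (f (max (t2 - 2 * d) s) - p)) -
        (f (min t1 s) + w (max s (min t1 (s + 2 * d))) + (f (max (t1 - 2 * d) s) - p)) = _
      ring
    have m1 : min t1 s ≤ min t2 s := min_le_min_right _ h12
    have m2 : max s (min t1 (s + 2 * d)) ≤ max s (min t2 (s + 2 * d)) :=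
      max_le_max_left _ (min_le_min_right _ h12)
    have m3 : max (t1 - 2 * d) s ≤ max (t2 - 2 * d) s := max_le_max_right _ (by linarith)
    have b1 := hfl (min t1 s) (min t2 s)
    rw [abs_of_nonneg (by linarith)] at b1
    have b2 := hwlip (max s (min t1 (s + 2 * d))) (max s (min t2 (s + 2 * d)))
    rw [abs_of_nonneg (by linarith)] at b2
    have b3 := hfl (max (t1 - 2 * d) s) (max (t2 - 2 * d) s)
    rw [abs_of_nonneg (by linarith)] at b3
    have i1 := h338_ident t1 s d hd0
    have i2 := h338_ident t2 s d hd0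
    rw [e1]
    refine (norm_add₃_le).trans ?_
    linarith
  refine ⟨by linarith, F, ?_, ?_⟩
  · refine LipschitzWith.of_dist_le_mul fun x y => ?_
    rw [dist_eq_norm, Real.dist_eq, NNReal.coe_one, one_mul]
    rcases le_total x y with h | h
    · rw [norm_sub_rev, abs_sub_comm, abs_of_nonneg (by linarith : 0 ≤ y - x)]
      exact key x y h
    · rw [abs_of_nonneg (by linarith : 0 ≤ x - y)]
      exact key y x h
  · intro x hx
    rcases hx with hx | hx
    · refine ⟨s + d, ⟨by linarith [hs.1], by linarith [hs.2]⟩, ?_⟩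
      rw [hF]
      show f (min (s + d) s) + w (max s (min (s + d) (s + 2 * d))) + (f (max (s + d - 2 * d) s) - p) = x
      rw [min_eq_right (by linarith : s ≤ s + d), min_eq_left (by linarith : s + d ≤ s + 2 * d),
        max_eq_right (by linarith : s ≤ s + d), max_eq_right (by linarith : s + d - 2 * d ≤ s), hw1,
        hfs, hx]
      ring
    · obtain ⟨t, ht, rfl⟩ := hSf hx
      rcases le_total t s with h | h
      · refine ⟨t, ⟨ht.1, by linarith [ht.2]⟩, ?_⟩
        rw [hF]
        show f (min t s) + w (max s (min t (s + 2 * d))) + (f (max (t - 2 * d) s) - p) = f t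
        rw [min_eq_left h, min_eq_left (by linarith : t ≤ s + 2 * d), max_eq_left h,
          max_eq_right (by linarith : t - 2 * d ≤ s), hw0, hfs]
        ring
      · refine ⟨t + 2 * d, ⟨by linarith [ht.1], by linarith [ht.2]⟩, ?_⟩
        rw [hF]
        show f (min (t + 2 * d) s) + w (max s (min (t + 2 * d) (s + 2 * d)))
          + (f (max (t + 2 * d - 2 * d) s) - p) = f t
        rw [min_eq_right (by linarith : s ≤ t + 2 * d), min_eq_right (by linarith : s + 2 * d ≤ t + 2 * d),
          max_eq_right (by linarith : s ≤ s + 2 * d), hw2, show t + 2 * d - 2 * d = t by ring,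
          max_eq_left h, hfs]
        ring

theorem trav_mono {S S' : Set ℂ} {L L' : ℝ} (hS : Trav S L) (h : S' ⊆ S) (hL : L ≤ L') :
    Trav S' L' := by
  obtain ⟨hL0, f, hf, hSf⟩ := hS
  exact ⟨hL0.trans hL, f, hf, h.trans (hSf.trans (image_mono (Icc_subset_Icc_right hL)))⟩

theorem trav_zero (a : ℂ) : Trav {a} 0 := by
  refine ⟨le_rfl, fun _ => a, (LipschitzWith.const a).weaken zero_le_one, ?_⟩
  intro x hx
  exact ⟨0, ⟨le_rfl, le_rfl⟩, hx.symm⟩

/-- JOB 6b: a whole family of detours of length at most `2 d` each -/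
theorem trav_family {S : Set ℂ} {L d : ℝ} (hS : Trav S L) {κ : Type} [Fintype κ] (p q : κ → ℂ)
    (hp : ∀ x, p x ∈ S) (hd : ∀ x, ‖p x - q x‖ ≤ d) :
    Trav (S ∪ range q) (L + Fintype.card κ * (2 * d)) := by
  classical
  have main : ∀ s : Finset κ, Trav (S ∪ q '' (s : Set κ)) (L + s.card * (2 * d)) := by
    intro s
    induction s using Finset.induction_on with
    | empty => simpa using hS
    | @insert a s ha ih =>
      have h1 := trav_insert (q := q a) ih (Or.inl (hp a) : p a ∈ S ∪ q '' (s : Set κ))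
      refine trav_mono h1 ?_ ?_
      · intro x hx
        rcases hx with hx | ⟨y, hy, rfl⟩
        · exact Or.inr (Or.inl hx)
        · rcases Finset.mem_insert.mp (Finset.mem_coe.mp hy) with h | h
          · rw [h]; exact Or.inl rfl
          · exact Or.inr (Or.inr ⟨y, h, rfl⟩)
      · rw [Finset.card_insert_of_notMem ha]
        push_cast
        have := hd a
        linarith
  have h1 := main Finset.univ
  rw [Finset.coe_univ, image_univ, Finset.card_univ] at h1
  exact h1

end

end H307W
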