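import Mathlib
import Pool.Agent.Helper307.Worm.Defs

set_option autoImplicit false

open MeasureTheory Set Metric

namespace H307W

noncomputable section

/-- the box -/
def auxB : Set ℂ := {z | -(1.1 : ℝ) < z.re ∧ z.re < 2.1 ∧ -(1.1 : ℝ) < z.im ∧ z.im < 2.1}

/-- the shift -/
def auxw (p : ℤ × ℤ) : ℂ := ⟨(p.1 : ℝ), (p.2 : ℝ)⟩

/-- a piece -/
def auxA (W : Set ℂ) (p : ℤ × ℤ) : Set ℂ := {z | z ∈ auxB ∧ z + auxw p ∈ W}

theorem auxB_open : IsOpen auxB := by
  have h1 : IsOpen {z : ℂ | -(1.1 : ℝ) < z.re} := isOpen_lt continuous_const Complex.continuous_re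
  have h2 : IsOpen {z : ℂ | z.re < 2.1} := isOpen_lt Complex.continuous_re continuous_const
  have h3 : IsOpen {z : ℂ | -(1.1 : ℝ) < z.im} := isOpen_lt continuous_const Complex.continuous_im
  have h4 : IsOpen {z : ℂ | z.im < 2.1} := isOpen_lt Complex.continuous_im continuous_const
  exact h1.inter (h2.inter (h3.inter h4))

theorem auxA_open (W : Set ℂ) (hW : IsOpen W) (p : ℤ × ℤ) : IsOpen (auxA W p) :=
  auxB_open.inter (hW.preimage (continuous_id.add continuous_const))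

/-- index of a residue class -/
def auxi (r : Fin 4 × Fin 4) (a : ℤ × ℤ) : ℤ × ℤ := (4 * a.1 + (r.1 : ℕ), 4 * a.2 + (r.2 : ℕ))

theorem aux_class (W : Set ℂ) (hW : IsOpen W) (r : Fin 4 × Fin 4) :
    volume (⋃ a : ℤ × ℤ, auxA W (auxi r a)) ≤ volume W := by
  have hpre : ∀ a : ℤ × ℤ, volume (auxA W (auxi r a)) =
      volume (W ∩ {x | x - auxw (auxi r a) ∈ auxB}) := by
    intro a
    have h1 : auxA W (auxi r a) = (fun z => z + auxw (auxi r a)) ⁻¹'
        (W ∩ {x | x - auxw (auxi r a) ∈ auxB}) := by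
      ext z
      simp only [auxA, Set.mem_ofPred_eq, Set.mem_preimage, Set.mem_inter_iff, add_sub_cancel_right]
      exact and_comm
    rw [h1, measure_preimage_add_right]
  have hopen : ∀ a : ℤ × ℤ, IsOpen (W ∩ {x | x - auxw (auxi r a) ∈ auxB}) := fun a =>
    hW.inter (auxB_open.preimage (continuous_id.sub continuous_const))
  have hdisj : Pairwise (Function.onFun Disjoint
      (fun a : ℤ × ℤ => W ∩ {x | x - auxw (auxi r a) ∈ auxB})) := by
    intro a b hab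
    rw [Function.onFun, Set.disjoint_left]
    rintro x ⟨_, hx⟩ ⟨_, hy⟩
    apply hab
    simp only [auxB, auxw, auxi, Set.mem_ofPred_eq, Complex.sub_re, Complex.sub_im] at hx hy
    obtain ⟨x1, x2, x3, x4⟩ := hx
    obtain ⟨y1, y2, y3, y4⟩ := hy
    push_cast at x1 x2 x3 x4 y1 y2 y3 y4
    have e1 : (a.1 : ℝ) < b.1 + 1 := by linarith
    have e2 : (b.1 : ℝ) < a.1 + 1 := by linarith
    have e3 : (a.2 : ℝ) < b.2 + 1 := by linarith
    have e4 : (b.2 : ℝ) < a.2 + 1 := by linarith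
    have f1 : a.1 < b.1 + 1 := by exact_mod_cast e1
    have f2 : b.1 < a.1 + 1 := by exact_mod_cast e2
    have f3 : a.2 < b.2 + 1 := by exact_mod_cast e3
    have f4 : b.2 < a.2 + 1 := by exact_mod_cast e4
    exact Prod.ext (by omega) (by omega)
  calc volume (⋃ a : ℤ × ℤ, auxA W (auxi r a))
      ≤ ∑' a : ℤ × ℤ, volume (auxA W (auxi r a)) := measure_iUnion_le _
    _ = ∑' a : ℤ × ℤ, volume (W ∩ {x | x - auxw (auxi r a) ∈ auxB}) := by simp only [hpre]
    _ = volume (⋃ a : ℤ × ℤ, W ∩ {x | x - auxw (auxi r a) ∈ auxB}) :=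
        (measure_iUnion hdisj fun a => (hopen a).measurableSet).symm
    _ ≤ volume W := measure_mono (Set.iUnion_subset fun a => Set.inter_subset_left)

theorem aux_cover (W : Set ℂ) :
    (⋃ p : ℤ × ℤ, auxA W p) ⊆ ⋃ r : Fin 4 × Fin 4, ⋃ a : ℤ × ℤ, auxA W (auxi r a) := by
  intro z hz
  obtain ⟨⟨m, n⟩, hp⟩ := Set.mem_iUnion.1 hz
  refine Set.mem_iUnion.2 ⟨(⟨(m % 4).toNat, by omega⟩, ⟨(n % 4).toNat, by omega⟩), ?_⟩
  refine Set.mem_iUnion.2 ⟨(m / 4, n / 4), ?_⟩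
  have h1 : auxi (⟨(m % 4).toNat, by omega⟩, ⟨(n % 4).toNat, by omega⟩) (m / 4, n / 4) =
      (m, n) := by
    unfold auxi
    refine Prod.ext ?_ ?_
    · simp only
      omega
    · simp only
      omega
  rw [h1]
  exact hp

/-- JOB 7: folding. An open set of small area that contains a placed copy of every worm can be
replaced by a bounded one. -/
theorem fold (W : Set ℂ) (hW : IsOpen W)
    (hcov : ∀ f : ℝ → ℂ, LipschitzWith 1 f → ∃ c τ : ℂ, ‖c‖ = 1 ∧ ∀ t ∈ Icc (0 : ℝ) 1, c * f t + τ ∈ W) :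
    ∃ V : Set ℂ, IsOpen V ∧ V ⊆ ball 0 10 ∧ volume V ≤ 16 * volume W ∧
      ∀ f : ℝ → ℂ, LipschitzWith 1 f → ∃ c τ : ℂ, ‖c‖ = 1 ∧ ∀ t ∈ Icc (0 : ℝ) 1, c * f t + τ ∈ V := by
  refine ⟨⋃ p : ℤ × ℤ, auxA W p, isOpen_iUnion fun p => auxA_open W hW p, ?_, ?_, ?_⟩
  · refine Set.iUnion_subset fun p => ?_
    rintro z ⟨⟨h1, h2, h3, h4⟩, _⟩
    rw [mem_ball_zero_iff]
    have h5 := Complex.norm_le_abs_re_add_abs_im z
    have h6 : |z.re| < 2.1 := abs_lt.2 ⟨by linarith, h2⟩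
    have h7 : |z.im| < 2.1 := abs_lt.2 ⟨by linarith, h4⟩
    linarith
  · calc volume (⋃ p : ℤ × ℤ, auxA W p)
        ≤ volume (⋃ r : Fin 4 × Fin 4, ⋃ a : ℤ × ℤ, auxA W (auxi r a)) :=
          measure_mono (aux_cover W)
      _ ≤ ∑' r : Fin 4 × Fin 4, volume (⋃ a : ℤ × ℤ, auxA W (auxi r a)) := measure_iUnion_le _
      _ = ∑ r : Fin 4 × Fin 4, volume (⋃ a : ℤ × ℤ, auxA W (auxi r a)) := tsum_fintype _
      _ ≤ ∑ _r : Fin 4 × Fin 4, volume W := Finset.sum_le_sum fun r _ => aux_class W hW r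
      _ = 16 * volume W := by
          rw [Finset.sum_const, Finset.card_univ, Fintype.card_prod, Fintype.card_fin, nsmul_eq_mul]
          norm_num
  · intro f hf
    obtain ⟨c, τ, hc, hcτ⟩ := hcov f hf
    obtain ⟨z0, hz0⟩ : ∃ z0 : ℂ, z0 = c * f 0 + τ := ⟨_, rfl⟩
    refine ⟨c, τ - auxw (⌊z0.re⌋, ⌊z0.im⌋), hc, ?_⟩
    intro t ht
    refine Set.mem_iUnion.2 ⟨(⌊z0.re⌋, ⌊z0.im⌋), ?_, ?_⟩
    · have h1 : ‖(c * f t + τ) - z0‖ ≤ 1 := by
        have h2 : (c * f t + τ) - z0 = c * (f t - f 0) := by rw [hz0]; ring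
        rw [h2, norm_mul, hc, one_mul, ← dist_eq_norm]
        have h3 := hf.dist_le_mul t 0
        rw [NNReal.coe_one, one_mul, Real.dist_eq, sub_zero, abs_of_nonneg ht.1] at h3
        exact h3.trans ht.2
      have h4 := (Complex.abs_re_le_norm ((c * f t + τ) - z0)).trans h1
      have h5 := (Complex.abs_im_le_norm ((c * f t + τ) - z0)).trans h1
      rw [Complex.sub_re] at h4
      rw [Complex.sub_im] at h5
      have h6 := abs_le.1 h4
      have h7 := abs_le.1 h5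
      have g1 := Int.floor_le z0.re
      have g2 := Int.lt_floor_add_one z0.re
      have g3 := Int.floor_le z0.im
      have g4 := Int.lt_floor_add_one z0.im
      have e1 : (c * f t + (τ - auxw (⌊z0.re⌋, ⌊z0.im⌋))).re = (c * f t + τ).re - ⌊z0.re⌋ := by
        simp only [Complex.add_re, Complex.sub_re, auxw]
        ring
      have e2 : (c * f t + (τ - auxw (⌊z0.re⌋, ⌊z0.im⌋))).im = (c * f t + τ).im - ⌊z0.im⌋ := by
        simp only [Complex.add_im, Complex.sub_im, auxw]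
        ring
      refine ⟨?_, ?_, ?_, ?_⟩
      · rw [e1]; linarith
      · rw [e1]; linarith
      · rw [e2]; linarith
      · rw [e2]; linarith
    · have h1 : c * f t + (τ - auxw (⌊z0.re⌋, ⌊z0.im⌋)) + auxw (⌊z0.re⌋, ⌊z0.im⌋) =
          c * f t + τ := by ring
      rw [h1]
      exact hcτ t ht

end

end H307W
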