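import Mathlib
import Pool.Agent.Helper307.Worm.Defs

set_option autoImplicit false

open MeasureTheory Set Metric

namespace H307W

noncomputable section

lemma margin_compact : IsCompact {f : ℝ → ℂ | LipschitzWith 1 f ∧ f 0 = 0} := by
  have h1 : IsCompact (Set.pi univ (fun t : ℝ => closedBall (0 : ℂ) |t|)) :=
    isCompact_univ_pi (fun t => isCompact_closedBall _ _)
  refine h1.of_isClosed_subset ?_ ?_
  · have e : {f : ℝ → ℂ | LipschitzWith 1 f ∧ f 0 = 0} =
        {f : ℝ → ℂ | ∀ x y, dist (f x) (f y) ≤ dist x y} ∩ {f : ℝ → ℂ | f 0 = 0} := by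
      ext f
      simp only [mem_setOf_eq, mem_inter_iff]
      constructor
      · rintro ⟨h, h0⟩
        exact ⟨fun x y => by simpa using h.dist_le_mul x y, h0⟩
      · rintro ⟨h, h0⟩
        exact ⟨LipschitzWith.of_dist_le_mul (by simpa using h), h0⟩
    rw [e]
    apply IsClosed.inter
    · simp only [setOf_forall]
      exact isClosed_iInter fun x => isClosed_iInter fun y =>
        isClosed_le ((continuous_apply x).dist (continuous_apply y)) continuous_const
    · exact isClosed_eq (continuous_apply 0) continuous_const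
  · rintro f ⟨hf, hf0⟩
    rw [Set.mem_univ_pi]
    intro t
    have := hf.dist_le_mul t 0
    rw [hf0] at this
    simpa [Real.dist_eq] using this

lemma margin_one (V : Set ℂ) (hV : IsOpen V) (f : ℝ → ℂ) (hf : LipschitzWith 1 f) (c τ : ℂ)
    (h : ∀ t ∈ Icc (0 : ℝ) 1, c * f t + τ ∈ V) :
    ∃ d > 0, ∀ t ∈ Icc (0 : ℝ) 1, closedBall (c * f t + τ) d ⊆ V := by
  have hc : Continuous (fun t => c * f t + τ) := by
    have := hf.continuous
    fun_prop
  have hK : IsCompact ((fun t => c * f t + τ) '' Icc (0 : ℝ) 1) := isCompact_Icc.image hc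
  obtain ⟨d, hd, hs⟩ := hK.exists_cthickening_subset_open hV (by
    rintro _ ⟨t, ht, rfl⟩
    exact h t ht)
  exact ⟨d, hd, fun t ht => (closedBall_subset_cthickening (mem_image_of_mem _ ht) d).trans hs⟩

/-- JOB 8: compactness (Arzela-Ascoli): the copies can be placed with a uniform margin -/
theorem margin (V : Set ℂ) (hV : IsOpen V) (hB : V ⊆ ball 0 10)
    (hcov : ∀ f : ℝ → ℂ, LipschitzWith 1 f → ∃ c τ : ℂ, ‖c‖ = 1 ∧ ∀ t ∈ Icc (0 : ℝ) 1, c * f t + τ ∈ V) :
    ∃ δ > 0, ∀ f : ℝ → ℂ, LipschitzWith 1 f → f 0 = 0 →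
      ∃ c τ : ℂ, ‖c‖ = 1 ∧ ∀ t ∈ Icc (0 : ℝ) 1, closedBall (c * f t + τ) δ ⊆ V := by
  have key := margin_compact.induction_on (p := fun S => ∃ δ > 0, ∀ f ∈ S, LipschitzWith 1 f →
    f 0 = 0 → ∃ c τ : ℂ, ‖c‖ = 1 ∧ ∀ t ∈ Icc (0 : ℝ) 1, closedBall (c * f t + τ) δ ⊆ V)
    ⟨1, one_pos, fun f hf => absurd hf (Set.notMem_empty f)⟩ ?_ ?_ ?_
  · obtain ⟨δ, hδ, h⟩ := key
    exact ⟨δ, hδ, fun f hf hf0 => h f ⟨hf, hf0⟩ hf hf0⟩
  · rintro S T hST ⟨δ, hδ, h⟩
    exact ⟨δ, hδ, fun f hf => h f (hST hf)⟩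
  · rintro S T ⟨δ, hδ, h⟩ ⟨δ', hδ', h'⟩
    refine ⟨min δ δ', lt_min hδ hδ', fun f hf hl h0 => ?_⟩
    rcases hf with hf | hf
    · obtain ⟨c, τ, hc, ht⟩ := h f hf hl h0
      exact ⟨c, τ, hc, fun t htt => (closedBall_subset_closedBall (min_le_left _ _)).trans (ht t htt)⟩
    · obtain ⟨c, τ, hc, ht⟩ := h' f hf hl h0
      exact ⟨c, τ, hc, fun t htt => (closedBall_subset_closedBall (min_le_right _ _)).trans (ht t htt)⟩
  · rintro f ⟨hf, hf0⟩
    obtain ⟨c, τ, hc, hcτ⟩ := hcov f hf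
    obtain ⟨d, hd, hdV⟩ := margin_one V hV f hf c τ hcτ
    obtain ⟨n, hn⟩ := exists_nat_one_div_lt (show (0 : ℝ) < d / 8 by positivity)
    refine ⟨{g | ∀ i ∈ Finset.range (n + 2), dist (g ((i : ℝ) / (n + 1))) (f ((i : ℝ) / (n + 1))) <
      d / 4}, mem_nhdsWithin_of_mem_nhds ?_, d / 2, by positivity, ?_⟩
    · have : ∀ᶠ g : ℝ → ℂ in nhds f, ∀ i ∈ Finset.range (n + 2),
          dist (g ((i : ℝ) / (n + 1))) (f ((i : ℝ) / (n + 1))) < d / 4 := by
        rw [Filter.eventually_all_finset]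
        intro i _
        have hca : Filter.Tendsto (fun g : ℝ → ℂ => g ((i : ℝ) / (n + 1))) (nhds f)
            (nhds (f ((i : ℝ) / (n + 1)))) := (continuous_apply ((i : ℝ) / (n + 1))).continuousAt
        have hbm : ball (f ((i : ℝ) / (n + 1))) (d / 4) ∈ nhds (f ((i : ℝ) / (n + 1))) :=
          ball_mem_nhds _ (by positivity)
        exact hca hbm
      exact this
    · intro g hg hgl hg0
      refine ⟨c, τ, hc, fun t ht => ?_⟩
      refine (closedBall_subset_closedBall' ?_).trans (hdV t ht)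
      have hn1 : (0 : ℝ) < (n : ℝ) + 1 := by positivity
      have hfl := Nat.floor_le (show 0 ≤ t * ((n : ℝ) + 1) by have := ht.1; positivity)
      have hfl2 := (Nat.lt_floor_add_one (t * ((n : ℝ) + 1))).le
      have hir : ⌊t * ((n : ℝ) + 1)⌋₊ ∈ Finset.range (n + 2) := by
        rw [Finset.mem_range]
        have h1 : t * ((n : ℝ) + 1) ≤ ((n + 1 : ℕ) : ℝ) := by
          push_cast
          nlinarith [ht.2]
        have h2 := Nat.floor_le_floor h1
        rw [Nat.floor_natCast] at h2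
        omega
      generalize ⌊t * ((n : ℝ) + 1)⌋₊ = i at *
      have hgi := hg i hir
      have hdist : dist t ((i : ℝ) / (n + 1)) ≤ d / 8 := by
        rw [Real.dist_eq]
        refine le_trans ?_ hn.le
        rw [abs_le]
        constructor
        · have h3 : (i : ℝ) / (n + 1) ≤ t := by rw [div_le_iff₀ hn1]; exact hfl
          have h4 : 0 ≤ 1 / ((n : ℝ) + 1) := by positivity
          linarith
        · have h3 : t ≤ ((i : ℝ) + 1) / (n + 1) := by rw [le_div_iff₀ hn1]; exact hfl2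
          rw [add_div] at h3
          linarith
      have h5 : dist (g t) (g ((i : ℝ) / (n + 1))) ≤ d / 8 := by
        have := hgl.dist_le_mul t ((i : ℝ) / (n + 1))
        simp only [NNReal.coe_one, one_mul] at this
        linarith
      have h6 : dist (f ((i : ℝ) / (n + 1))) (f t) ≤ d / 8 := by
        have := hf.dist_le_mul t ((i : ℝ) / (n + 1))
        simp only [NNReal.coe_one, one_mul] at this
        rw [dist_comm]
        linarith
      have h7 : dist (g t) (f t) ≤ d / 2 := by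
        have h8 := dist_triangle4 (g t) (g ((i : ℝ) / (n + 1))) (f ((i : ℝ) / (n + 1))) (f t)
        linarith
      have h9 : dist (c * g t + τ) (c * f t + τ) = dist (g t) (f t) := by
        rw [dist_add_right, dist_eq_norm, ← mul_sub, norm_mul, hc, one_mul, dist_eq_norm]
      rw [h9]
      linarith

end

end H307W
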