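import Mathlib
import Pool.Agent.Helper307.Worm.Defs

set_option autoImplicit false

open MeasureTheory Set Metric

namespace H307W

noncomputable section

/-- JOB 4: existence by the exponential moment method (Hoeffding) -/
theorem hoeff {Ω : Type*} [MeasurableSpace Ω] (ν : Measure Ω) [IsProbabilityMeasure ν]
    {κ : Type*} [Fintype κ] {Γ : Type*} (G : Finset Γ) (Y : Γ → κ → Ω → ℝ)
    (hm : ∀ g x, Measurable (Y g x)) (h0 : ∀ g x ω, 0 ≤ Y g x ω) (h1 : ∀ g x ω, Y g x ω ≤ 1)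
    (t : ℝ) (ht : 0 ≤ t)
    (hc : (G.card : ℝ) * Real.exp (-((Fintype.card κ : ℝ) * t ^ 2 / 2)) < 1)
    (T : Set Ω) (hT : ∀ᵐ ω ∂ν, ω ∈ T) :
    ∃ u : κ → Ω, (∀ x, u x ∈ T) ∧
      ∀ g ∈ G, ∑ x, Y g x (u x) ≤ ∑ x, ∫ ω, Y g x ω ∂ν + Fintype.card κ * t := by
  classical
  set N : ℝ := (Fintype.card κ : ℝ) with hN
  set m : Γ → κ → ℝ := fun g x => ∫ ω, Y g x ω ∂ν with hmm
  -- one-dimensional bound
  have hone : ∀ g x, ∫ ω, Real.exp (t * (Y g x ω - m g x)) ∂ν ≤ Real.exp (t ^ 2 / 2) := by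
    intro g x
    have hsub := ProbabilityTheory.hasSubgaussianMGF_of_mem_Icc (μ := ν) (a := 0) (b := 1)
      (X := Y g x) (hm g x).aemeasurable (Filter.Eventually.of_forall fun ω => ⟨h0 g x ω, h1 g x ω⟩)
    have h2 := hsub.mgf_le t
    unfold ProbabilityTheory.mgf at h2
    refine h2.trans (Real.exp_le_exp.mpr ?_)
    have e : (((‖(1:ℝ) - 0‖₊ / 2) ^ 2 : NNReal) : ℝ) = 1 / 4 := by
      push_cast
      norm_num
    rw [e]
    nlinarith [sq_nonneg t]
  have hint1 : ∀ g x, Integrable (fun ω => Real.exp (t * (Y g x ω - m g x))) ν := by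
    intro g x
    have hsub := ProbabilityTheory.hasSubgaussianMGF_of_mem_Icc (μ := ν) (a := 0) (b := 1)
      (X := Y g x) (hm g x).aemeasurable (Filter.Eventually.of_forall fun ω => ⟨h0 g x ω, h1 g x ω⟩)
    exact hsub.integrable_exp_mul t
  set Φ : (κ → Ω) → ℝ := fun u => ∑ g ∈ G, Real.exp (-(N * t ^ 2)) *
    ∏ x, Real.exp (t * (Y g x (u x) - m g x)) with hΦ
  have hprodint : ∀ g, Integrable (fun u : κ → Ω => ∏ x, Real.exp (t * (Y g x (u x) - m g x)))
      (Measure.pi fun _ : κ => ν) := fun g => Integrable.fintype_prod (hint1 g)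
  have hΦint : Integrable Φ (Measure.pi fun _ : κ => ν) := by
    refine integrable_finset_sum _ fun g _ => ?_
    exact (hprodint g).const_mul _
  have hΦval : ∫ u, Φ u ∂(Measure.pi fun _ : κ => ν) < 1 := by
    simp only [hΦ]
    rw [integral_finset_sum _ fun g _ => (hprodint g).const_mul _]
    refine lt_of_le_of_lt ?_ hc
    have hg : ∀ g ∈ G, ∫ u : κ → Ω, Real.exp (-(N * t ^ 2)) *
        ∏ x, Real.exp (t * (Y g x (u x) - m g x)) ∂(Measure.pi fun _ : κ => ν) ≤
        Real.exp (-(N * t ^ 2 / 2)) := by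
      intro g _
      have hpr : ∫ a : κ → Ω, ∏ x, Real.exp (t * (Y g x (a x) - m g x)) ∂(Measure.pi fun _ : κ => ν) =
          ∏ x, ∫ ω, Real.exp (t * (Y g x ω - m g x)) ∂ν :=
        integral_fintype_prod_eq_prod (μ := fun _ : κ => ν)
          (fun (x : κ) (ω : Ω) => Real.exp (t * (Y g x ω - m g x)))
      rw [integral_const_mul, hpr]
      have hp : ∏ x, ∫ ω, Real.exp (t * (Y g x ω - m g x)) ∂ν ≤ ∏ _x : κ, Real.exp (t ^ 2 / 2) :=
        Finset.prod_le_prod (fun x _ => integral_nonneg fun ω => (Real.exp_pos _).le)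
          fun x _ => hone g x
      rw [Finset.prod_const, Finset.card_univ, ← Real.exp_nat_mul] at hp
      calc _ ≤ Real.exp (-(N * t ^ 2)) * Real.exp ((Fintype.card κ : ℝ) * (t ^ 2 / 2)) :=
            mul_le_mul_of_nonneg_left hp (Real.exp_pos _).le
        _ = Real.exp (-(N * t ^ 2 / 2)) := by
            rw [← Real.exp_add]
            congr 1
            rw [hN]; ring
    calc _ ≤ ∑ g ∈ G, Real.exp (-(N * t ^ 2 / 2)) := Finset.sum_le_sum hg
      _ = _ := by rw [Finset.sum_const, nsmul_eq_mul]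
  by_contra hcon
  push Not at hcon
  have hae : ∀ᵐ u ∂(Measure.pi fun _ : κ => ν), ∀ x, u x ∈ T := by
    rw [ae_all_iff]
    intro x
    exact (Measure.tendsto_eval_ae_ae (μ := fun _ : κ => ν) (i := x)).eventually hT
  have hge : ∀ᵐ u ∂(Measure.pi fun _ : κ => ν), (1 : ℝ) ≤ Φ u := by
    filter_upwards [hae] with u hu
    obtain ⟨g, hgG, hgt⟩ := hcon u hu
    have hterm : (1 : ℝ) ≤ Real.exp (-(N * t ^ 2)) * ∏ x, Real.exp (t * (Y g x (u x) - m g x)) := by
      rw [← Real.exp_sum, ← Real.exp_add]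
      apply Real.one_le_exp
      rw [← Finset.mul_sum, Finset.sum_sub_distrib]
      have : 0 ≤ t * ((∑ x, Y g x (u x)) - (∑ x, m g x) - N * t) := by
        apply mul_nonneg ht
        simp only [hmm, hN]
        linarith
      nlinarith
    refine hterm.trans ?_
    exact Finset.single_le_sum (f := fun g => Real.exp (-(N * t ^ 2)) *
      ∏ x, Real.exp (t * (Y g x (u x) - m g x)))
      (fun g _ => mul_nonneg (Real.exp_pos _).le
        (Finset.prod_nonneg fun x _ => (Real.exp_pos _).le)) hgG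
  have hfin : (1 : ℝ) ≤ ∫ u, Φ u ∂(Measure.pi fun _ : κ => ν) := by
    have h3 := integral_mono_ae (integrable_const (1 : ℝ)) hΦint hge
    simpa using h3
  linarith

end

end H307W
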