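import Mathlib
import Pool.Agent.Helper307.Worm.Defs

set_option autoImplicit false

open MeasureTheory Set Metric

namespace H307W

noncomputable section

/-- JOB 5: a net of a bounded set in the plane, consisting of points of the set -/
theorem net (M η : ℝ) (hM : 1 ≤ M) (hη : 0 < η) (hη1 : η ≤ 1) (S : Set ℂ) (hS : S ⊆ closedBall 0 M) :
    ∃ N : Finset ℂ, (↑N : Set ℂ) ⊆ S ∧ (N.card : ℝ) ≤ (8 * M / η) ^ 2 ∧
      ∀ s ∈ S, ∃ x ∈ N, ‖s - x‖ ≤ η := by
  classical
  let key : ℂ → ℤ × ℤ := fun z => (⌊2 * z.re / η⌋, ⌊2 * z.im / η⌋)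
  let A : ℤ := ⌈2 * M / η⌉
  let B : Finset (ℤ × ℤ) := ((Finset.Icc (-A) A) ×ˢ (Finset.Icc (-A) A)).filter
    (fun b => ∃ z ∈ S, key z = b)
  let rep : ℤ × ℤ → ℂ := fun b => if h : ∃ z ∈ S, key z = b then h.choose else 0
  have hrep : ∀ b, (∃ z ∈ S, key z = b) → rep b ∈ S ∧ key (rep b) = b := by
    intro b h
    have : rep b = h.choose := dif_pos h
    rw [this]
    exact h.choose_spec
  have hMη : 1 ≤ M / η := by rw [le_div_iff₀ hη]; linarith
  have hA0 : 0 ≤ A := Int.ceil_nonneg (by positivity)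
  have hA1 : (A : ℝ) < 2 * M / η + 1 := Int.ceil_lt_add_one _
  have hA2 : 2 * M / η ≤ (A : ℝ) := Int.le_ceil _
  refine ⟨B.image rep, ?_, ?_, ?_⟩
  · intro x hx
    rw [Finset.mem_coe, Finset.mem_image] at hx
    obtain ⟨b, hb, rfl⟩ := hx
    exact (hrep b (Finset.mem_filter.1 hb).2).1
  · have h1 : ((B.image rep).card : ℝ) ≤ (B.card : ℝ) := by exact_mod_cast Finset.card_image_le
    have h2 : (B.card : ℝ) ≤ (((Finset.Icc (-A) A) ×ˢ (Finset.Icc (-A) A)).card : ℝ) := by
      exact_mod_cast Finset.card_filter_le _ _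
    have h3 : (((Finset.Icc (-A) A) ×ˢ (Finset.Icc (-A) A)).card : ℝ) = (2 * (A : ℝ) + 1) ^ 2 := by
      rw [Finset.card_product, Int.card_Icc]
      have h4 : (((A + 1 - -A).toNat : ℕ) : ℝ) = 2 * (A : ℝ) + 1 := by
        have : (((A + 1 - -A).toNat : ℤ)) = A + 1 - -A := Int.toNat_of_nonneg (by linarith)
        have h5 : (((A + 1 - -A).toNat : ℕ) : ℝ) = ((A + 1 - -A : ℤ) : ℝ) := by
          rw [← Int.cast_natCast, this]
        rw [h5]; push_cast; ring
      push_cast
      rw [h4]; ring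
    have h5 : 2 * (A : ℝ) + 1 ≤ 8 * M / η := by
      have : 8 * M / η = 4 * (M / η) + 2 * (2 * M / η) := by ring
      have h6 : 2 * M / η = 2 * (M / η) := by ring
      rw [this]
      linarith
    have hA3 : (0 : ℝ) ≤ 2 * (A : ℝ) + 1 := by
      have : (0 : ℝ) ≤ (A : ℝ) := by exact_mod_cast hA0
      linarith
    calc ((B.image rep).card : ℝ) ≤ (2 * (A : ℝ) + 1) ^ 2 := by linarith
      _ ≤ (8 * M / η) ^ 2 := pow_le_pow_left₀ hA3 h5 2
  · intro s hs
    have hsM : ‖s‖ ≤ M := by simpa using hS hs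
    have hb : ∀ t : ℝ, |t| ≤ M → ⌊2 * t / η⌋ ∈ Finset.Icc (-A) A := by
      intro t ht
      rw [abs_le] at ht
      rw [Finset.mem_Icc]
      constructor
      · rw [Int.le_floor]
        push_cast
        have : -(2 * M / η) ≤ 2 * t / η := by
          rw [← neg_div]
          exact div_le_div_of_nonneg_right (by linarith) hη.le
        linarith
      · have h1 : (⌊2 * t / η⌋ : ℝ) ≤ 2 * t / η := Int.floor_le _
        have h2 : 2 * t / η ≤ 2 * M / η := div_le_div_of_nonneg_right (by linarith) hη.le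
        have : (⌊2 * t / η⌋ : ℝ) ≤ (A : ℝ) := by linarith
        exact_mod_cast this
    have hmem : key s ∈ B := by
      rw [Finset.mem_filter, Finset.mem_product]
      exact ⟨⟨hb _ ((Complex.abs_re_le_norm s).trans hsM), hb _ ((Complex.abs_im_le_norm s).trans hsM)⟩,
        s, hs, rfl⟩
    obtain ⟨h1, h2⟩ := hrep (key s) ⟨s, hs, rfl⟩
    refine ⟨rep (key s), Finset.mem_image_of_mem _ hmem, ?_⟩
    have hk1 : ⌊2 * (rep (key s)).re / η⌋ = ⌊2 * s.re / η⌋ := congrArg Prod.fst h2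
    have hk2 : ⌊2 * (rep (key s)).im / η⌋ = ⌊2 * s.im / η⌋ := congrArg Prod.snd h2
    have key2 : ∀ x y : ℝ, ⌊2 * y / η⌋ = ⌊2 * x / η⌋ → |x - y| ≤ η / 2 := by
      intro x y h
      have h3 := Int.abs_sub_lt_one_of_floor_eq_floor h
      have h4 : 2 * y / η - 2 * x / η = 2 / η * (y - x) := by ring
      rw [h4, abs_mul, abs_of_pos (by positivity : 0 < 2 / η)] at h3
      rw [abs_sub_comm x y]
      have h5 : 2 / η * |y - x| * (η / 2) < 1 * (η / 2) := mul_lt_mul_of_pos_right h3 (by positivity)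
      have h6 : 2 / η * |y - x| * (η / 2) = |y - x| := by field_simp
      linarith
    have h3 := Complex.norm_le_abs_re_add_abs_im (s - rep (key s))
    rw [Complex.sub_re, Complex.sub_im] at h3
    have h4 := key2 s.re (rep (key s)).re hk1
    have h5 := key2 s.im (rep (key s)).im hk2
    linarith

end

end H307W
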