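import Mathlib
import Pool.Agent.Helper307.Worm.W1
import Pool.Agent.Helper307.Worm.W4
import Pool.Agent.Helper307.Worm.W5

set_option autoImplicit false

open MeasureTheory Set Metric

namespace H307W

noncomputable section

/-- JOB 9 (target): one stage of the construction.  -/
theorem stage {ι : Type} [Fintype ι] (b : ℕ) (β : ι → ℂ) (hβ : ∀ i, ‖β i‖ ≤ 1) (r t L α : ℝ)
    (hr : 0 < r) (hr1 : r ≤ 1) (ht : 0 < t) (htL : t ≤ L) (F : ℂ → ℝ) (hF : Measurable F)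
    (h0 : ∀ z, 0 ≤ F z) (h1 : ∀ z, F z ≤ 1) (hLip : ∀ y z, |F y - F z| ≤ L * ‖y - z‖)
    (hcount : 1700000 * (4 * L / t) ^ 4 *
      Real.exp (-(((Fintype.card ι * b : ℕ) : ℝ) * t ^ 2 / 2)) < 1)
    (hA : ∀ c τ : ℂ, ‖c‖ = 1 → ‖τ‖ ≤ 20 → ∑ i, av r F (c * β i + τ) ≤ α * Fintype.card ι) :
    ∃ u : ι × Fin b → ℂ, (∀ x, ‖u x‖ ≤ 1) ∧
      ∀ c τ : ℂ, ‖c‖ = 1 → ‖τ‖ ≤ 20 →
        ∑ x : ι × Fin b, F (c * (β x.1 + r * u x) + τ) ≤
          (α + 2 * t) * ((Fintype.card ι * b : ℕ) : ℝ) := by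
  classical
  have hL : 0 < L := lt_of_lt_of_le ht htL
  set η : ℝ := t / (4 * L) with hη
  have hη0 : 0 < η := by positivity
  have hη1 : η ≤ 1 := by
    rw [hη, div_le_one (by positivity)]; linarith
  have hLη : L * (4 * η) = t := by
    rw [hη]; field_simp
  have hηinv : 1 / η = 4 * L / t := by
    rw [hη]; field_simp
  obtain ⟨N1, hN1, hN1c, hN1n⟩ := net 1 η le_rfl hη0 hη1 {c : ℂ | ‖c‖ = 1} (by
    intro c hc
    have : ‖c‖ = 1 := hc
    rw [mem_closedBall, dist_zero_right, this])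
  obtain ⟨N2, hN2, hN2c, hN2n⟩ := net 20 η (by norm_num) hη0 hη1 {c : ℂ | ‖c‖ ≤ 20} (by
    intro c hc
    have : ‖c‖ ≤ 20 := hc
    rw [mem_closedBall, dist_zero_right]; exact this)
  haveI := nu_prob
  let Y : ℂ × ℂ → ι × Fin b → ℂ → ℝ := fun g x w => F (g.1 * (β x.1 + r * w) + g.2)
  have hcard : Fintype.card (ι × Fin b) = Fintype.card ι * b := by
    rw [Fintype.card_prod, Fintype.card_fin]
  have hGc : (((N1 ×ˢ N2).card : ℕ) : ℝ) ≤ 1700000 * (4 * L / t) ^ 4 := by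
    rw [Finset.card_product]
    push_cast
    calc (N1.card : ℝ) * (N2.card : ℝ) ≤ (8 * 1 / η) ^ 2 * (8 * 20 / η) ^ 2 :=
          mul_le_mul hN1c hN2c (Nat.cast_nonneg _) (by positivity)
      _ = 1638400 * (1 / η) ^ 4 := by ring
      _ ≤ 1700000 * (1 / η) ^ 4 := by
          apply mul_le_mul_of_nonneg_right (by norm_num) (by positivity)
      _ = 1700000 * (4 * L / t) ^ 4 := by rw [hηinv]
  obtain ⟨u, hu1, hu2⟩ := hoeff nu (N1 ×ˢ N2) Y
    (fun g x => hF.comp (by fun_prop))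
    (fun g x w => h0 _) (fun g x w => h1 _) t ht.le (by
      rw [hcard]
      refine lt_of_le_of_lt ?_ hcount
      exact mul_le_mul_of_nonneg_right hGc (Real.exp_nonneg _)) (closedBall 0 1) nu_ae
  refine ⟨u, fun x => by simpa using hu1 x, ?_⟩
  intro c τ hc hτ
  obtain ⟨c', hc'N, hcc'⟩ := hN1n c hc
  obtain ⟨τ', hτ'N, hττ'⟩ := hN2n τ hτ
  have hc'1 : ‖c'‖ = 1 := hN1 hc'N
  have hτ'1 : ‖τ'‖ ≤ 20 := hN2 hτ'N
  have h2 := hu2 (c', τ') (Finset.mem_product.2 ⟨hc'N, hτ'N⟩)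
  have hint : ∀ x : ι × Fin b, ∫ w, Y (c', τ') x w ∂nu = av r F (c' * β x.1 + τ') := by
    intro x
    rw [← av_rot r F (c' * β x.1 + τ') c' hc'1]
    congr 1
    funext w
    show F (c' * (β x.1 + r * w) + τ') = _
    congr 1
    ring
  have hsum : ∑ x : ι × Fin b, ∫ w, Y (c', τ') x w ∂nu ≤ α * ((Fintype.card ι * b : ℕ) : ℝ) := by
    simp only [hint]
    rw [Fintype.sum_prod_type]
    simp only [Finset.sum_const, Finset.card_univ, Fintype.card_fin, nsmul_eq_mul]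
    rw [← Finset.mul_sum]
    have := mul_le_mul_of_nonneg_left (hA c' τ' hc'1 hτ'1) (Nat.cast_nonneg b : (0 : ℝ) ≤ (b : ℝ))
    refine this.trans (le_of_eq ?_)
    push_cast
    ring
  have hpt : ∀ x : ι × Fin b, F (c * (β x.1 + r * u x) + τ) ≤ Y (c', τ') x (u x) + t := by
    intro x
    have h3 := hLip (c * (β x.1 + r * u x) + τ) (c' * (β x.1 + r * u x) + τ')
    have h4 : ‖c * (β x.1 + r * u x) + τ - (c' * (β x.1 + r * u x) + τ')‖ ≤ 4 * η := by
      have e : c * (β x.1 + r * u x) + τ - (c' * (β x.1 + r * u x) + τ') =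
          (c - c') * (β x.1 + r * u x) + (τ - τ') := by ring
      rw [e]
      have hu : ‖u x‖ ≤ 1 := by simpa using hu1 x
      have h5 : ‖β x.1 + r * u x‖ ≤ 2 := by
        calc ‖β x.1 + r * u x‖ ≤ ‖β x.1‖ + ‖(r : ℂ) * u x‖ := norm_add_le _ _
          _ = ‖β x.1‖ + r * ‖u x‖ := by rw [norm_mul, Complex.norm_real, Real.norm_of_nonneg hr.le]
          _ ≤ 1 + 1 * 1 := add_le_add (hβ _) (mul_le_mul hr1 hu (norm_nonneg _) zero_le_one)
          _ = 2 := by norm_num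
      calc ‖(c - c') * (β x.1 + r * u x) + (τ - τ')‖
          ≤ ‖(c - c') * (β x.1 + r * u x)‖ + ‖τ - τ'‖ := norm_add_le _ _
        _ = ‖c - c'‖ * ‖β x.1 + r * u x‖ + ‖τ - τ'‖ := by rw [norm_mul]
        _ ≤ η * 2 + η := add_le_add (mul_le_mul hcc' h5 (norm_nonneg _) hη0.le) hττ'
        _ ≤ 4 * η := by linarith
    have h6 : L * ‖c * (β x.1 + r * u x) + τ - (c' * (β x.1 + r * u x) + τ')‖ ≤ t := by
      calc _ ≤ L * (4 * η) := mul_le_mul_of_nonneg_left h4 hL.le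
        _ = t := hLη
    have h7 := (abs_le.1 (h3.trans h6)).2
    show F (c * (β x.1 + r * u x) + τ) ≤ F (c' * (β x.1 + r * u x) + τ') + t
    linarith
  calc ∑ x : ι × Fin b, F (c * (β x.1 + r * u x) + τ)
      ≤ ∑ x : ι × Fin b, (Y (c', τ') x (u x) + t) := Finset.sum_le_sum fun x _ => hpt x
    _ = ∑ x : ι × Fin b, Y (c', τ') x (u x) + ((Fintype.card ι * b : ℕ) : ℝ) * t := by
        rw [Finset.sum_add_distrib, Finset.sum_const, Finset.card_univ, hcard, nsmul_eq_mul]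
    _ ≤ (α + 2 * t) * ((Fintype.card ι * b : ℕ) : ℝ) := by
        rw [hcard] at h2
        nlinarith [h2, hsum]

end

end H307W
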