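import Mathlib
import Pool.Agent.Helper307.Worm.W6
import Pool.Agent.Helper307.Worm.W7
import Pool.Agent.Helper307.Worm.W8
import Pool.Agent.Helper307.Worm.W9
import Pool.Agent.Helper307.Worm.W10
import Pool.Agent.Helper307.Worm.W11

set_option autoImplicit false

open MeasureTheory Set Metric

namespace H307W

noncomputable section

/-- the iteration -/
theorem iter (W : Set ℂ) (hW : MeasurableSet W) (hv : volume W ≤ ENNReal.ofReal (1 / 2 ^ 40)) (K : ℕ) :
    ∀ k ≤ K, ∃ (ι : Type) (_ : Fintype ι) (β : ι → ℂ) (S : Set ℂ), Fintype.card ι = nn k ∧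
      (∀ i, ‖β i‖ ≤ 1 - 2 * rr k) ∧ (∀ i, β i ∈ S) ∧ Trav S (1 - (1 / 3) * (1 / 4 : ℝ) ^ k) ∧
      ∀ c τ : ℂ, ‖c‖ = 1 → ‖τ‖ ≤ 20 →
        ∑ i, fl W (K + 1 - k) k (c * β i + τ) ≤ (3 / 4 - 4 * tt k) * nn k := by
  intro k
  induction k with
  | zero =>
    intro _
    refine ⟨Unit, inferInstance, fun _ => 0, {0}, ?_, ?_, ?_, ?_, ?_⟩
    · simp [nn]
    · intro i
      have := rr_le 0
      simp only [norm_zero]
      linarith
    · intro i; simp
    · exact trav_mono (trav_zero 0) subset_rfl (by norm_num)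
    · intro c τ hc hτ
      have h := fl_start W hW hv K (c * 0 + τ)
      have h2 : K + 1 - 0 = K + 1 := by omega
      rw [h2]
      have h3 : tt 0 = 1 / 16 := by norm_num [tt]
      simp only [Finset.univ_unique, Finset.sum_const, Finset.card_singleton, one_smul, nn, h3]
      push_cast
      linarith
  | succ k ih =>
    intro hk
    obtain ⟨ι, hι, β, S, hcard, hβ, hS, hT, hA⟩ := ih (by omega)
    have hj : K + 1 - k = (K - k) + 1 := by omega
    have hj2 : K + 1 - (k + 1) = (K - (k + 1)) + 1 := by omega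
    have hj3 : K - k = (K - (k + 1)) + 1 := by omega
    rw [hj] at hA
    have hFm := fl_meas W hW (K - k) (k + 1)
    have hrk := rr_pos k
    have hrk1 := rr_le k
    have hrk2 := rr_pos (k + 1)
    have htk := tt_pos k
    obtain ⟨u, hu, hB⟩ := stage (bb k) β (fun i => by linarith [hβ i]) (rr k) (tt k) (2 / rr (k + 1))
      (3 / 4 - 4 * tt k) hrk (by linarith) htk (tt_le k) (fl W (K - k) (k + 1)) hFm
      (fl_nonneg W _ _) (fl_le_one W _ _)
      (by rw [hj3]; exact fl_lip W hW _ _)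
      (by rw [hcard]; exact count k)
      (by
        intro c τ hc hτ
        have := hA c τ hc hτ
        rw [hcard]
        exact this)
    refine ⟨ι × Fin (bb k), inferInstance, fun x => β x.1 + rr k * u x,
      S ∪ range (fun x : ι × Fin (bb k) => β x.1 + rr k * u x), ?_, ?_, ?_, ?_, ?_⟩
    · rw [Fintype.card_prod, Fintype.card_fin, hcard]; rfl
    · intro x
      have h1 : ‖β x.1 + rr k * u x‖ ≤ ‖β x.1‖ + rr k * ‖u x‖ := by
        refine (norm_add_le _ _).trans ?_
        rw [norm_mul, Complex.norm_real, Real.norm_of_nonneg hrk.le]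
      have h2 : rr k * ‖u x‖ ≤ rr k * 1 := mul_le_mul_of_nonneg_left (hu x) hrk.le
      have := hβ x.1
      have := rr_step k
      linarith
    · intro x; exact Or.inr ⟨x, rfl⟩
    · have h1 := trav_family hT (d := rr k) (fun x : ι × Fin (bb k) => β x.1)
        (fun x : ι × Fin (bb k) => β x.1 + rr k * u x) (fun x => hS x.1) (by
          intro x
          have : β x.1 - (β x.1 + rr k * u x) = -(rr k * u x) := by ring
          rw [this, norm_neg, norm_mul, Complex.norm_real, Real.norm_of_nonneg hrk.le]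
          have h2 : rr k * ‖u x‖ ≤ rr k * 1 := mul_le_mul_of_nonneg_left (hu x) hrk.le
          linarith)
      refine trav_mono h1 subset_rfl ?_
      rw [Fintype.card_prod, Fintype.card_fin, hcard]
      exact cost k
    · intro c τ hc hτ
      have h1 := hB c τ hc hτ
      have h2 : K + 1 - (k + 1) = K - k := by omega
      rw [h2]
      refine h1.trans ?_
      have h3 : ((Fintype.card ι * bb k : ℕ) : ℝ) = (nn (k + 1) : ℝ) := by
        rw [hcard]; rfl
      rw [h3]
      exact mul_le_mul_of_nonneg_right (tt_step k) (by positivity)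

/-- the main step: a set of small area is not a cover with a margin -/
theorem main_step (V : Set ℂ) (hV : IsOpen V) (hB : V ⊆ ball 0 10)
    (hv : volume V ≤ ENNReal.ofReal (1 / 2 ^ 40))
    (hcov : ∀ f : ℝ → ℂ, LipschitzWith 1 f → ∃ c τ : ℂ, ‖c‖ = 1 ∧ ∀ t ∈ Icc (0 : ℝ) 1, c * f t + τ ∈ V) :
    False := by
  obtain ⟨δ, hδ, hmar⟩ := margin V hV hB hcov
  obtain ⟨K, hK⟩ := rr_small δ hδ
  obtain ⟨ι, hι, β, S, hcard, hβ, hS, ⟨_, f, hf, hSf⟩, hA⟩ := iter V hV.measurableSet hv K K le_rfl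
  have hf' : LipschitzWith 1 (fun t => f t - f 0) := by
    intro x y
    simpa using hf x y
  obtain ⟨c, τ', hc, hin⟩ := hmar (fun t => f t - f 0) hf' (by simp)
  have hL : (1 - (1 / 3) * (1 / 4 : ℝ) ^ K) ≤ 1 := by
    have : (0 : ℝ) ≤ (1 / 3) * (1 / 4 : ℝ) ^ K := by positivity
    linarith
  set τ : ℂ := τ' - c * f 0 with hτdef
  have hpt : ∀ i, ∃ t ∈ Icc (0 : ℝ) 1, f t = β i := by
    intro i
    obtain ⟨t, ht, hft⟩ := hSf (hS i)
    exact ⟨t, ⟨ht.1, ht.2.trans hL⟩, hft⟩
  have hball : ∀ i, closedBall (c * β i + τ) δ ⊆ V := by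
    intro i
    obtain ⟨t, ht, hft⟩ := hpt i
    have h := hin t ht
    have h2 : c * (f t - f 0) + τ' = c * β i + τ := by rw [hft, hτdef]; ring
    rwa [h2] at h
  have hnn : 0 < nn K := by
    cases K with
    | zero => simp [nn]
    | succ k => rw [nn_succ]; positivity
  have hne : Nonempty ι := Fintype.card_pos_iff.mp (by omega)
  have hτ : ‖τ‖ ≤ 20 := by
    obtain ⟨i⟩ := hne
    have h1 : c * β i + τ ∈ ball (0 : ℂ) 10 := hB (hball i (mem_closedBall_self hδ.le))
    rw [mem_ball_zero_iff] at h1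
    have h2 : ‖β i‖ ≤ 1 := by linarith [hβ i, rr_pos K]
    have h3 : τ = (c * β i + τ) - c * β i := by ring
    rw [h3]
    refine (norm_sub_le _ _).trans ?_
    rw [norm_mul, hc, one_mul]
    linarith
  have hsum := hA c τ hc hτ
  have hK1 : K + 1 - K = 0 + 1 := by omega
  rw [hK1] at hsum
  have hex : ∃ i, fl V (0 + 1) K (c * β i + τ) < 1 := by
    by_contra hcon
    push Not at hcon
    have h1 : (nn K : ℝ) ≤ ∑ i, fl V (0 + 1) K (c * β i + τ) := by
      calc (nn K : ℝ) = ∑ _i : ι, (1 : ℝ) := by simp [hcard]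
        _ ≤ _ := Finset.sum_le_sum fun i _ => hcon i
    have h2 : (0 : ℝ) < nn K := by exact_mod_cast hnn
    have h3 := tt_pos K
    nlinarith
  obtain ⟨i, hi⟩ := hex
  obtain ⟨y, hy1, hy2⟩ := exists_of_av_lt_one (rr K) (rr_pos K).le (fl V 0 (K + 1))
    (fl_meas V hV.measurableSet 0 (K + 1)) (fl_nonneg V _ _) (fl_le_one V _ _) _ hi
  have hyV : y ∈ V := hball i (by rw [mem_closedBall, dist_eq_norm]; linarith)
  simp [fl, hyV] at hy2

end

end H307W
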